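import Pool.Agent.Y444.RP.Basis
import Pool.Agent.Y444.RP.Count
import Pool.Agent.Y47.RP.SUB
import Pool.Agent.Y43.RP.SQ
import Pool.Agent.Y21.RP.Lim
import Pool.Agent.Y145.RP.Top
import Pool.Agent.Y550.RP.Not
import Pool.Agent.Y410.RP.Wex
import Pool.Agent.Y457.RP.Top2
import Pool.Agent.Y907.RP2.Lim2
import Pool.Agent.Y41.RP.Box
import Pool.Agent.Y540.RP.Not2

/-!
# `MP_bc8021_gt`, Q1: products of spaces with bases of point-finite rank

Full answer to Q1 in a stronger and sharp form. A product of finitely many `T1` spaces with bases
of point-finite rank is hereditarily metacompact (parts (1) and (4), the full answer to Q1, are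
the starting result `FiniteProducts`). New: a product of countably many such spaces is
hereditarily `σ`-metacompact (2), but need not be hereditarily metacompact, even for a countable
power of a `T3` space with a Noetherian base of rank one (3). Point-finite rank cannot be weakened
to subinfinite rank: the Sorgenfrey line has a base of subinfinite rank, and its square is not
metacompact (5); this cannot even be done for one of two factors if the other one has a Noetherian
base of rank one (6).

A base of subinfinite rank of the Sorgenfrey line: the intervals `[a, b)` for which there is a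
`k : ℕ` with `b ∈ 2⁻ᵏ ℤ` and `b - 2⁻ᵏ ≤ a`. The second factor in (6) is the space `RW` of all
nonempty reverse well-ordered sets of reals with a least element; the neighbourhoods of `A` consist
of `A` and the downward end extensions of `A` whose next element is close to `min A`. The open
subspace `{(x, B) : min B ≤ x}` of the product is not metacompact, by a Baire category argument for
the tree `RW`. The space in (3) consists of the countable sequences of natural numbers (indexed by
the elements of a well-order of type `ω₁`) and of isolated points attached to them; the open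
subspace consists of the points of the countable power at least one coordinate of which is
isolated.
-/

set_option autoImplicit false

universe u v

open TopologicalSpace

namespace Pool.Agent.Results.MP_bc8021_gt.SharpProducts

open Pool.Agent.Helper332.NB Pool.Agent.Y444.RP

/-- (1) A product of finitely many `T1` spaces, each with a base of point-finite rank, is
metacompact, and so is each of its subspaces. (2) For a product of countably many such spaces,
every open cover of every subspace has an open refinement which is the union of countably many
point-finite families. (3) In (2) one does not get metacompactness: there is a `T3` space with a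
Noetherian base of rank one such that some open subspace of its countable power is not even
countably metacompact. (4) In (1) the `T1` axiom cannot be dropped, even for the square of a `T0`
space with a base of rank one. (5) In (1) point-finite rank cannot be replaced by subinfinite rank:
the Sorgenfrey line has a base of subinfinite rank, and its square is not metacompact. (6) Nor can
it be replaced in one of two factors: there is a `T3` space `Y` with a Noetherian base of rank one
such that some open subspace of the product of the Sorgenfrey line and `Y` is not metacompact. -/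
theorem result :
    (∀ (ι : Type v) [Finite ι] (X : ι → Type u) [∀ i, TopologicalSpace (X i)]
      [∀ i, T1Space (X i)],
      (∀ i, ∃ B : Set (Set (X i)), IsTopologicalBasis B ∧ PointFiniteRank B) →
      Metacompact (∀ i, X i) ∧ ∀ S : Set (∀ i, X i), Metacompact S) ∧
    (∀ (X : ℕ → Type u) [∀ i, TopologicalSpace (X i)] [∀ i, T1Space (X i)],
      (∀ i, ∃ B : Set (Set (X i)), IsTopologicalBasis B ∧ PointFiniteRank B) →
      ∀ S : Set (∀ i, X i), SigmaMetacompact S) ∧
    (∃ (X : Type) (_ : TopologicalSpace X), T3Space X ∧
      (∃ B : Set (Set X), IsTopologicalBasis B ∧ Noetherian B ∧ RankOne B) ∧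
      ∃ Z : Set (ℕ → X), IsOpen Z ∧ ¬ CountablyMetacompact Z) ∧
    (∃ (X : Type) (_ : TopologicalSpace X), T0Space X ∧
      (∃ B : Set (Set X), IsTopologicalBasis B ∧ RankOne B) ∧ ¬ Metacompact (Fin 2 → X)) ∧
    (T3Space Sorg ∧ (∃ B : Set (Set Sorg), IsTopologicalBasis B ∧ SubinfiniteRank B) ∧
      ¬ Metacompact (Sorg × Sorg)) ∧
    (∃ (Y : Type) (_ : TopologicalSpace Y), T3Space Y ∧
      (∃ B : Set (Set Y), IsTopologicalBasis B ∧ Noetherian B ∧ RankOne B) ∧
      ∃ Z : Set (Sorg × Y), IsOpen Z ∧ ¬ Metacompact Z) := by
  refine ⟨?_, ?_, ?_, ?_, ⟨sorg_t3, Pool.Agent.Y47.RP.SUB.t basis, Pool.Agent.Y43.RP.SQ.t basis⟩,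
    ?_⟩
  · intro ι _ X _ _ h
    choose B hB hr using h
    choose Γ h1 h2 h3 _ using fun i => main (hB i) (hr i)
    have hb := boxes_base h1
    have hN := boxes_noetherian h2 (fun i => (h3 i).subinfinite)
    have hs := boxes_subinfinite h2 (fun i => (h3 i).subinfinite)
    exact ⟨metacompact_of_inducing Topology.IsInducing.id hb hN hs,
      fun S => metacompact_of_inducing Topology.IsInducing.subtypeVal hb hN hs⟩
  · intro X _ _ h
    choose B hB hr using h
    choose Γ h1 h2 h3 _ using fun i => main (hB i) (hr i)
    exact count X Γ h1 h2 fun i => (h3 i).subinfinite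
  · have hL : Lim2Stm := Pool.Agent.Y907.RP2.t
    have hT : Top2Stm := Pool.Agent.Y457.RP.t
    have hX : Box2Stm := Pool.Agent.Y41.RP.t hT
    obtain ⟨W, hW1, hW⟩ := Pool.Agent.Y410.RP.t
    have hTW := hT W hW
    have : T1Space (Xs W) := hTW.1
    exact ⟨Xs W, inferInstance, t3_of_rankOne hTW.2.1 hTW.2.2.2,
      ⟨_, hTW.2.1, hTW.2.2.1, hTW.2.2.2⟩, Zc W, Pool.Agent.Y540.RP.t hL hX W hW⟩
  · exact ⟨Seg, Seg.top, Seg.t0, ⟨Set.range Seg.seg, Seg.base,
      fun _ U hU V hV _ _ => Seg.total U V hU hV⟩, Seg.not_metacompact⟩
  · have hL : LimStm := Pool.Agent.Y21.RP.t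
    have hT : TopStm := Pool.Agent.Y145.RP.t hL
    have : T1Space RW := hT.1
    exact ⟨RW, inferInstance, t3_of_rankOne hT.2.1 hT.2.2.2, ⟨_, hT.2.1, hT.2.2.1, hT.2.2.2⟩,
      Z, Pool.Agent.Y550.RP.t basis hL hT⟩

end Pool.Agent.Results.MP_bc8021_gt.SharpProducts
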